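import Mathlib

/-!
# Plus-one generated arrangements
-/

open MvPolynomial

set_option autoImplicit false

namespace Pool.Agent.L0h14.POG

universe u

variable {K : Type u} [Field K] {n l : ℕ}

/-- The linear form with coefficients `v`. -/
noncomputable def lin (v : Fin l → K) : MvPolynomial (Fin l) K := ∑ j, C (v j) * X j

/-- The hyperplane defined by `v`. -/
def hyper (v : Fin l → K) : Submodule K (Fin l → K) where
  carrier := {x | ∑ j, v j * x j = 0}
  add_mem' := by
    intro a b ha hb
    show ∑ j, v j * (a j + b j) = 0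
    simp only [mul_add, Finset.sum_add_distrib]
    rw [show ∑ j, v j * a j = 0 from ha, show ∑ j, v j * b j = 0 from hb, add_zero]
  zero_mem' := by simp
  smul_mem' := by
    intro c a ha
    show ∑ j, v j * (c * a j) = 0
    have : ∑ j, v j * (c * a j) = c * ∑ j, v j * a j := by
      rw [Finset.mul_sum]
      exact Finset.sum_congr rfl fun j _ => by ring
    rw [this, show ∑ j, v j * a j = 0 from ha, mul_zero]

/-- `α` defines an essential arrangement of `n` distinct hyperplanes in `K^l`. -/
structure IsArrangement (α : Fin n → Fin l → K) : Prop where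
  ne_zero : ∀ i, α i ≠ 0
  distinct : ∀ i j, i ≠ j → hyper (α i) ≠ hyper (α j)
  essential : ⨅ i, hyper (α i) = ⊥

/-- The intersection lattice: all intersections of subfamilies. -/
def lattice (α : Fin n → Fin l → K) : Set (Submodule K (Fin l → K)) :=
  {W | ∃ I : Set (Fin n), W = ⨅ i ∈ I, hyper (α i)}

/-- The intersection lattices, ordered by reverse inclusion, are isomorphic. -/
def SameLattice {m : ℕ} (α : Fin n → Fin l → K) (β : Fin m → Fin l → K) : Prop :=
  Nonempty ((lattice α)ᵒᵈ ≃o (lattice β)ᵒᵈ)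

/-- `θ` is a logarithmic derivation: `θ(α_H)` is divisible by `α_H` for all hyperplanes. -/
def IsLog (α : Fin n → Fin l → K) (θ : Fin l → MvPolynomial (Fin l) K) : Prop :=
  ∀ i, lin (α i) ∣ ∑ j, C (α i j) * θ j

/-- `θ` is homogeneous of degree `p`. -/
def Homog (θ : Fin l → MvPolynomial (Fin l) K) (p : ℕ) : Prop := ∀ j, (θ j).IsHomogeneous p

/-- `θ i`, of degrees `e i`, and `φ`, of degree `d`, generate the module of logarithmic derivations. -/
structure Generates (α : Fin n → Fin l → K) (e : Fin l → ℕ) (d : ℕ) (θ : Fin l → Fin l → MvPolynomial (Fin l) K)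
    (φ : Fin l → MvPolynomial (Fin l) K) : Prop where
  log : ∀ i, IsLog α (θ i)
  log' : IsLog α φ
  homog : ∀ i, Homog (θ i) (e i)
  homog' : Homog φ d
  span : ∀ ψ, IsLog α ψ → ∃ (g : Fin l → MvPolynomial (Fin l) K) (h : MvPolynomial (Fin l) K), ψ = ∑ i, g i • θ i + h • φ

/-- The relations between `θ` and `φ` form a free module with the basis `(f, lin a)`, which is of degree `d + 1`. -/
structure Relation (e : Fin l → ℕ) (d : ℕ) (θ : Fin l → Fin l → MvPolynomial (Fin l) K)
    (φ : Fin l → MvPolynomial (Fin l) K) (f : Fin l → MvPolynomial (Fin l) K) (a : Fin l → K) : Prop where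
  homog : ∀ i, e i ≤ d + 1 → (f i).IsHomogeneous (d + 1 - e i)
  homog' : ∀ i, d + 1 < e i → f i = 0
  rel : ∑ i, f i • θ i + lin a • φ = 0
  nonzero : f ≠ 0 ∨ a ≠ 0
  exact : ∀ (g : Fin l → MvPolynomial (Fin l) K) (h : MvPolynomial (Fin l) K), ∑ i, g i • θ i + h • φ = 0 →
    ∃ c, (∀ i, g i = c * f i) ∧ h = c * lin a

/-- `α` is plus-one generated with exponents `e` and level `d`, with the linear form `lin a` in the minimal free resolution
`0 → S[-d-1] → S[-d] ⊕ ⨁ S[-e i] → D(α) → 0`. It is minimal if the entries `f i` have no constant term. -/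
def PlusOneWith (α : Fin n → Fin l → K) (e : Fin l → ℕ) (d : ℕ) (a : Fin l → K) : Prop :=
  ∃ (θ : Fin l → Fin l → MvPolynomial (Fin l) K) (φ f : Fin l → MvPolynomial (Fin l) K),
    Generates α e d θ φ ∧ Relation e d θ φ f a ∧ ∀ i, constantCoeff (f i) = 0

/-- `α` is plus-one generated with exponents `e` and level `d`. -/
def PlusOne (α : Fin n → Fin l → K) (e : Fin l → ℕ) (d : ℕ) : Prop := ∃ a, PlusOneWith α e d a

/-- `α` is strictly plus-one generated with exponents `e` and level `d`. -/
def StrictlyPlusOne (α : Fin n → Fin l → K) (e : Fin l → ℕ) (d : ℕ) : Prop := ∃ a, a ≠ 0 ∧ PlusOneWith α e d a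

end Pool.Agent.L0h14.POG
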