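import Pool.Agent.L0h14.POG.Defs

/-!
# Two arrangements of nine planes (nine lines in the projective plane)
-/

open MvPolynomial

set_option autoImplicit false

namespace Pool.Agent.L0h14.POG

/-- The integral coefficients of the first arrangement. -/
def Az : Fin 9 → Fin 3 → ℤ :=
  ![![-1, 1, -2], ![1, 0, 0], ![-1, 2, -2], ![0, 0, 1], ![1, 0, 2], ![-1, 3, -2], ![1, -1, 0], ![0, 1, -1], ![0, 1, -2]]

/-- The integral coefficients of the second arrangement. -/
def Bz : Fin 9 → Fin 3 → ℤ :=
  ![![1, -1, -1], ![1, 0, 0], ![-2, 1, -1], ![0, 0, 1], ![1, 0, 2], ![-4, 3, 1], ![1, -1, 0], ![0, 1, -1], ![0, 1, 1]]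

/-- The first arrangement. -/
def A : Fin 9 → Fin 3 → ℚ := fun i j => (Az i j : ℚ)

/-- The second arrangement. -/
def B : Fin 9 → Fin 3 → ℚ := fun i j => (Bz i j : ℚ)

abbrev S := MvPolynomial (Fin 3) ℚ

/-- Module LAT: both are arrangements, with isomorphic lattices. -/
def StmLAT : Prop := IsArrangement A ∧ IsArrangement B ∧ SameLattice A B

/-- Module NOF: no derivations `(P, R, 0)` of degree four. -/
def StmNOF : Prop := ∀ P R : S, P.IsHomogeneous 4 → R.IsHomogeneous 4 →
  (∀ i, lin (B i) ∣ C (B i 0) * P + C (B i 1) * R) → P = 0 ∧ R = 0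

/-- Module NPO: the second arrangement is not plus-one generated, since one needs five generators. -/
def StmNPO : Prop := StmNOF → ∀ e d, ¬ PlusOne B e d

/-- Module PLA: the first arrangement is strictly plus-one generated. -/
def StmPLA : Prop := StrictlyPlusOne A ![1, 4, 5] 6

end Pool.Agent.L0h14.POG
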